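import Pool.Agent.Helper39.PLQGlobal

/-!
# MP_83d7ff_an, Q1: twice semidifferentiable piecewise quadratic functions are PLQ

We prove Q1: every continuous `f : ℝⁿ → ℝ` which at each point agrees with one of finitely many
quadratic functions (PQ) and which is twice semidifferentiable at every point is piecewise
linear-quadratic (PLQ).
-/

open Filter Topology Set
open scoped Matrix

namespace Pool.Agent.Results.MP_83d7ff_an.TwiceSemidiffIsPLQ

/-- A quadratic function `q(x) = ½ xᵀQx + bᵀx + c` on `ℝⁿ`. -/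
def IsQuadratic {n : ℕ} (q : (Fin n → ℝ) → ℝ) : Prop :=
  ∃ (Q : Matrix (Fin n) (Fin n) ℝ) (b : Fin n → ℝ) (c : ℝ),
    ∀ x, q x = 1 / 2 * (x ⬝ᵥ (Q *ᵥ x)) + b ⬝ᵥ x + c

/-- A closed half-space `{x | aᵀx ≤ c}` with `a ≠ 0`. -/
def IsClosedHalfSpace {n : ℕ} (H : Set (Fin n → ℝ)) : Prop :=
  ∃ (a : Fin n → ℝ) (c : ℝ), a ≠ 0 ∧ H = {x | a ⬝ᵥ x ≤ c}

/-- A polyhedron: an intersection of finitely many closed half-spaces. -/
def IsPolyhedron {n : ℕ} (P : Set (Fin n → ℝ)) : Prop :=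
  ∃ 𝓗 : Set (Set (Fin n → ℝ)), 𝓗.Finite ∧ (∀ H ∈ 𝓗, IsClosedHalfSpace H) ∧ P = ⋂₀ 𝓗

/-- `f` is piecewise quadratic (PQ) on `ℝⁿ`: continuous, and there are finitely many quadratic
functions `q₁, …, q_I` with `f(x) ∈ {q₁(x), …, q_I(x)}` for every `x`. -/
def IsPQ {n : ℕ} (f : (Fin n → ℝ) → ℝ) : Prop :=
  Continuous f ∧ ∃ (I : ℕ) (q : Fin I → (Fin n → ℝ) → ℝ),
    (∀ i, IsQuadratic (q i)) ∧ ∀ x, ∃ i, f x = q i x

/-- `f` is piecewise linear-quadratic (PLQ) on `ℝⁿ`: continuous, and there are quadratic functions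
`q₁, …, q_I` and polyhedra `P₁, …, P_I` with union `ℝⁿ` and `f = q_i` on `P_i`. -/
def IsPLQ {n : ℕ} (f : (Fin n → ℝ) → ℝ) : Prop :=
  Continuous f ∧ ∃ (I : ℕ) (q : Fin I → (Fin n → ℝ) → ℝ) (P : Fin I → Set (Fin n → ℝ)),
    (∀ i, IsQuadratic (q i)) ∧ (∀ i, IsPolyhedron (P i)) ∧ (⋃ i, P i) = Set.univ ∧
      ∀ i, ∀ x ∈ P i, f x = q i x

/-- `D` is the semiderivative of `f` at `x`: for every `v`,
`(f(x + τ v') - f(x)) / τ → D(v)` as `v' → v`, `τ ↓ 0`. -/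
def HasSemideriv {n : ℕ} (f : (Fin n → ℝ) → ℝ) (x : Fin n → ℝ) (D : (Fin n → ℝ) → ℝ) : Prop :=
  ∀ v, Tendsto (fun p : (Fin n → ℝ) × ℝ => (f (x + p.2 • p.1) - f x) / p.2)
    (𝓝 v ×ˢ 𝓝[>] 0) (𝓝 (D v))

/-- `f` is twice semidifferentiable at `x`: it is semidifferentiable at `x` (with `D = df(x)`) and
for every `w` the limit of `(f(x + τ w') - f(x) - τ df(x)(w')) / τ²` as `w' → w`, `τ ↓ 0`
exists in `ℝ`. -/
def TwiceSemidifferentiableAt {n : ℕ} (f : (Fin n → ℝ) → ℝ) (x : Fin n → ℝ) : Prop :=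
  ∃ D : (Fin n → ℝ) → ℝ, HasSemideriv f x D ∧
    ∀ w, ∃ s : ℝ, Tendsto
      (fun p : (Fin n → ℝ) × ℝ => (f (x + p.2 • p.1) - f x - p.2 * D p.1) / p.2 ^ 2)
      (𝓝 w ×ˢ 𝓝[>] 0) (𝓝 s)

open Pool.Agent.Helper39.PLQ

private theorem exists_quad {n : ℕ} {q : (Fin n → ℝ) → ℝ} (hq : IsQuadratic q) :
    ∃ Q : Quad (Fin n → ℝ), Q.eval = q := by
  obtain ⟨Q, b, c, h⟩ := hq
  let B₀ : (Fin n → ℝ) →ₗ[ℝ] (Fin n → ℝ) →ₗ[ℝ] ℝ :=
    LinearMap.mk₂ ℝ (fun x y => 1 / 2 * (x ⬝ᵥ (Q *ᵥ y)))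
      (fun x x' y => by simp only [add_dotProduct]; ring)
      (fun a x y => by simp only [smul_dotProduct, smul_eq_mul]; ring)
      (fun x y y' => by simp only [Matrix.mulVec_add, dotProduct_add]; ring)
      (fun a x y => by simp only [Matrix.mulVec_smul, dotProduct_smul, smul_eq_mul]; ring)
  let L₀ : (Fin n → ℝ) →ₗ[ℝ] ℝ :=
    { toFun := fun x => b ⬝ᵥ x
      map_add' := fun x y => dotProduct_add _ _ _
      map_smul' := fun a x => dotProduct_smul _ _ _ }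
  refine ⟨⟨LinearMap.toContinuousLinearMap
    ((LinearMap.toContinuousLinearMap : ((Fin n → ℝ) →ₗ[ℝ] ℝ) ≃ₗ[ℝ] _).toLinearMap ∘ₗ B₀),
    LinearMap.toContinuousLinearMap L₀, c⟩, ?_⟩
  funext x
  rw [h x]
  rfl

private theorem aff_eq {n : ℕ} (A : ((Fin n → ℝ) →L[ℝ] ℝ) × ℝ) (x : Fin n → ℝ) :
    affEval A x = (fun i => A.1 (Pi.single i 1)) ⬝ᵥ x + A.2 := by
  have h1 : x = ∑ i, x i • (Pi.single i (1:ℝ) : Fin n → ℝ) := by
    conv_lhs => rw [pi_eq_sum_univ' x]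
  simp only [affEval, dotProduct]
  congr 1
  conv_lhs => rw [h1]
  rw [map_sum]
  refine Finset.sum_congr rfl fun i _ => ?_
  rw [map_smul, smul_eq_mul, mul_comm]

private theorem polyhedron_closedCell {n : ℕ} {κ : Type} [Finite κ]
    (A : κ → ((Fin n → ℝ) →L[ℝ] ℝ) × ℝ) (hA : ∀ k, (A k).1 ≠ 0) (σ : κ → Bool) :
    IsPolyhedron (closedCell A σ) := by
  refine ⟨Set.range fun k => {x | 0 ≤ sg (σ k) * affEval (A k) x}, Set.finite_range _, ?_, ?_⟩
  · rintro _ ⟨k, rfl⟩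
    refine ⟨fun i => - (sg (σ k) * (A k).1 (Pi.single i 1)), sg (σ k) * (A k).2, ?_, ?_⟩
    · intro h0
      apply hA k
      have h1 : ∀ i, (A k).1 (Pi.single i 1) = 0 := by
        intro i
        have h2 := congrFun h0 i
        simp only [Pi.zero_apply, neg_eq_zero, mul_eq_zero] at h2
        rcases h2 with h2 | h2
        · exfalso
          cases hσ : σ k <;> simp [sg, hσ] at h2
        · exact h2
      refine ContinuousLinearMap.ext fun x => ?_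
      have h3 := aff_eq ((A k).1, 0) x
      simp only [affEval, add_zero, h1] at h3
      rw [h3]
      simp [dotProduct]
    · ext x
      show 0 ≤ sg (σ k) * affEval (A k) x ↔
        (fun i => - (sg (σ k) * (A k).1 (Pi.single i 1))) ⬝ᵥ x ≤ sg (σ k) * (A k).2
      rw [aff_eq]
      have h4 : (fun i => - (sg (σ k) * (A k).1 (Pi.single i 1))) ⬝ᵥ x =
          - (sg (σ k) * ((fun i => (A k).1 (Pi.single i 1)) ⬝ᵥ x)) := by
        simp only [dotProduct, Finset.mul_sum, ← Finset.sum_neg_distrib]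
        refine Finset.sum_congr rfl fun i _ => by ring
      rw [h4, mul_add]
      constructor <;> intro h <;> linarith
  · ext x
    simp only [closedCell, Set.sInter_range, Set.mem_iInter]
    exact Iff.rfl

/-- **Q1 of MP_83d7ff_an holds**: every PQ function `f : ℝⁿ → ℝ` that is twice semidifferentiable
at every point of `ℝⁿ` is PLQ. -/
theorem result (n : ℕ) (f : (Fin n → ℝ) → ℝ) (hf : IsPQ f)
    (htw : ∀ x, TwiceSemidifferentiableAt f x) : IsPLQ f := by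
  classical
  obtain ⟨hc, I, q, hq, hsel⟩ := hf
  refine ⟨hc, ?_⟩
  -- distinct quadratics
  let s : Finset ((Fin n → ℝ) → ℝ) := Finset.univ.image q
  have hs : ∀ g ∈ s, ∃ Q : Quad (Fin n → ℝ), Q.eval = g := by
    intro g hg
    obtain ⟨i, _, rfl⟩ := Finset.mem_image.1 hg
    exact exists_quad (hq i)
  have hs' : ∀ g ∈ s, IsQuadratic g := by
    intro g hg
    obtain ⟨i, _, rfl⟩ := Finset.mem_image.1 hg
    exact hq i
  have hex : ∃ (m : ℕ) (g : Fin m → (Fin n → ℝ) → ℝ), Function.Injective g ∧ ∀ h, h ∈ s ↔ ∃ i, g i = h := by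
    refine ⟨s.card, fun i => (s.equivFin.symm i).1, ?_, ?_⟩
    · intro i j hij
      exact s.equivFin.symm.injective (Subtype.ext hij)
    · intro h
      constructor
      · intro hh
        exact ⟨s.equivFin ⟨h, hh⟩, by simp⟩
      · rintro ⟨i, rfl⟩
        exact (s.equivFin.symm i).2
  obtain ⟨m, g, hginj, hg⟩ := hex
  have hQ : ∀ i, ∃ Q : Quad (Fin n → ℝ), Q.eval = g i := fun i => hs _ ((hg _).2 ⟨i, rfl⟩)
  choose Q hQ using hQ
  obtain ⟨κ, hκ, A, hA, hcov, hcell⟩ := global Q f hc (by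
    intro x
    obtain ⟨i, hi⟩ := hsel x
    obtain ⟨j, hj⟩ := (hg (q i)).1 (Finset.mem_image.2 ⟨i, Finset.mem_univ _, rfl⟩)
    exact ⟨j, by rw [hQ, hj, hi]⟩) (by
    intro i j hij
    by_contra hcon
    push Not at hcon
    apply hij
    apply hginj
    rw [← hQ, ← hQ]
    exact funext hcon) htw
  let T := {σ : κ → Bool // (openCell A σ).Nonempty}
  haveI : Finite T := Subtype.finite
  obtain ⟨N, ⟨e⟩⟩ := Finite.exists_equiv_fin T
  have hch : ∀ σ : T, ∃ i, ∀ x ∈ closedCell A σ.1, f x = (Q i).eval x := fun σ => hcell σ.1 σ.2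
  choose r hr using hch
  refine ⟨N, fun k => g (r (e.symm k)), fun k => closedCell A (e.symm k).1,
    fun k => hs' _ ((hg _).2 ⟨_, rfl⟩), fun k => polyhedron_closedCell A hA _, ?_, ?_⟩
  · rw [Set.eq_univ_iff_forall]
    intro x
    obtain ⟨σ, h1, h2⟩ := hcov x
    rw [Set.mem_iUnion]
    exact ⟨e ⟨σ, h1⟩, by simpa using h2⟩
  · intro k x hx
    have := hr (e.symm k) x hx
    rw [this, hQ]

end Pool.Agent.Results.MP_83d7ff_an.TwiceSemidiffIsPLQ
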